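import Pool.Agent.Helper58.DG.Goals

/-!
# Packet E_FIN (MP_06d934_gt, project DG): the end.
-/

set_option autoImplicit false

namespace Pool.Agent.Helper54.DG

open Pool.Agent.Helper83.EIN Pool.Agent.Helper58.DG Finset Topology

/-- The index of a pair. -/
def kk : Fin 4 → Fin 4 → Fin 6 := ![![0, 0, 1, 3], ![0, 0, 2, 4], ![1, 2, 0, 5], ![3, 4, 5, 0]]

/-- The denominators. -/
def den (v : Fin 6 → ℝ) : Fin 6 → ℝ :=
  ![4 * v 0 * v 3 * v 4 * v 1 * v 2, 4 * v 1 * v 3 * v 5 * v 0 * v 2,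
    4 * v 2 * v 4 * v 5 * v 0 * v 1, 4 * v 3 * v 0 * v 4 * v 1 * v 5,
    4 * v 4 * v 0 * v 3 * v 2 * v 5, 4 * v 5 * v 1 * v 3 * v 2 * v 4]

theorem den_pos {v : Fin 6 → ℝ} (hv : ∀ i, 0 < v i) (k : Fin 6) : 0 < den v k := by
  have h0 := hv 0
  have h1 := hv 1
  have h2 := hv 2
  have h3 := hv 3
  have h4 := hv 4
  have h5 := hv 5
  fin_cases k <;> simp only [den] <;> simp <;> positivity

theorem den_cd (k : Fin 6) : ContDiff ℝ 1 (fun v : Fin 6 → ℝ ↦ den v k) := by
  fin_cases k <;> simp only [den] <;> simp <;> fun_prop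

theorem FA_cd' (a b c t : ℝ) (k : Fin 6) : ContDiff ℝ 1 (fun v : Fin 6 → ℝ ↦ FA a b c t v k) := by
  fin_cases k <;> simp only [FA] <;> simp <;> fun_prop

theorem ric_mat {n : Fin 4 → ℕ} {a b c t : ℝ}
    (e : (fun k ↦ (n k : ℝ) / ∑ l, (n l : ℝ)) = ![t * a, t * b, t * c, 1 - t])
    {v : Fin 6 → ℝ} (hv : ∀ i, 0 < v i) {i j : Fin 4} (hij : i ≠ j) :
    ric n (mat v) i j = 1 / 2 - FA a b c t v (kk i j) / den v (kk i j) := by
  have hf : ∀ (i j : Fin 4) (f : Fin 4 → ℝ), ∑ k with k ≠ i ∧ k ≠ j, f k =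
      (if 0 ≠ i ∧ 0 ≠ j then f 0 else 0) + (if 1 ≠ i ∧ 1 ≠ j then f 1 else 0) +
      (if 2 ≠ i ∧ 2 ≠ j then f 2 else 0) + (if 3 ≠ i ∧ 3 ≠ j then f 3 else 0) := by
    intro i j f
    rw [sum_filter, Fin.sum_univ_four]
  have e0 : (n 0 : ℝ) / ∑ l, (n l : ℝ) = t * a := congrFun e 0
  have e1 : (n 1 : ℝ) / ∑ l, (n l : ℝ) = t * b := congrFun e 1
  have e2 : (n 2 : ℝ) / ∑ l, (n l : ℝ) = t * c := congrFun e 2
  have e3 : (n 3 : ℝ) / ∑ l, (n l : ℝ) = 1 - t := congrFun e 3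
  rw [ric_eq n (isMetric_mat hv) hij, hf, e0, e1, e2, e3]
  have p0 := hv 0
  have p1 := hv 1
  have p2 := hv 2
  have p3 := hv 3
  have p4 := hv 4
  have p5 := hv 5
  fin_cases i <;> fin_cases j
  all_goals first
    | exact absurd rfl hij
    | skip
  all_goals simp [kk, mat, FA, den, cs]
  all_goals field_simp
  all_goals ring

theorem mat_add (u w : Fin 6 → ℝ) (s : ℝ) : mat (u + s • w) = mat u + s • mat w := by
  funext i j
  fin_cases i <;> fin_cases j <;> simp [mat]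

theorem vec_pos {x : Fin 4 → Fin 4 → ℝ} (hx : IsMetric x) (i : Fin 6) : 0 < vec x i := by
  fin_cases i
  · exact hx.pos 0 1 (by decide)
  · exact hx.pos 0 2 (by decide)
  · exact hx.pos 1 2 (by decide)
  · exact hx.pos 0 3 (by decide)
  · exact hx.pos 1 3 (by decide)
  · exact hx.pos 2 3 (by decide)

theorem jac_ne {n : Fin 4 → ℕ} {a b c t : ℝ}
    (e : (fun k ↦ (n k : ℝ) / ∑ l, (n l : ℝ)) = ![t * a, t * b, t * c, 1 - t])
    {x : Fin 4 → Fin 4 → ℝ} (hx : IsMetric x) (hS : Sol a b c t (vec x)) (hN : NonDeg n x) :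
    jac (FA a b c t) (vec x) ≠ 0 := by
  intro hj
  have hv := vec_pos hx
  have h0 : LinearMap.det ((fderiv ℝ (FA a b c t) (vec x) : (Fin 6 → ℝ) →L[ℝ] (Fin 6 → ℝ)) :
      (Fin 6 → ℝ) →ₗ[ℝ] (Fin 6 → ℝ)) = 0 := hj
  obtain ⟨w, hw, hw0⟩ := Submodule.exists_mem_ne_zero_of_ne_bot
    (LinearMap.bot_lt_ker_of_det_eq_zero h0).ne'
  have hw1 : fderiv ℝ (FA a b c t) (vec x) w = 0 := hw
  apply hw0
  have hF0 : FA a b c t (vec x) = 0 := (sol_iff_FA hv).1 hS
  have hFd : HasFDerivAt (FA a b c t) (fderiv ℝ (FA a b c t) (vec x)) (vec x) := by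
    have h1 : ContDiff ℝ 1 (FA a b c t) := contDiff_pi.2 fun k ↦ FA_cd' a b c t k
    exact (h1.differentiable (by simp) _).hasFDerivAt
  let γ : ℝ → Fin 6 → ℝ := fun s ↦ vec x + s • w
  have hγ0 : γ 0 = vec x := by simp [γ]
  have hγ : HasDerivAt γ w 0 := by
    have h1 := ((hasDerivAt_id (0 : ℝ)).smul_const w).const_add (vec x)
    rw [one_smul] at h1
    exact h1
  have hF : HasDerivAt (fun s ↦ FA a b c t (γ s)) 0 0 := by
    have h1 : HasFDerivAt (FA a b c t) (fderiv ℝ (FA a b c t) (vec x)) (γ 0) := by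
      rw [hγ0]
      exact hFd
    have h2 := h1.comp_hasDerivAt 0 hγ
    rw [hw1] at h2
    exact h2
  have h1 : mat w = 0 := by
    apply hN (mat w)
    · intro i j
      fin_cases i <;> fin_cases j <;> rfl
    · intro i
      fin_cases i <;> rfl
    · intro i j hij
      have hk : HasDerivAt (fun s ↦ FA a b c t (γ s) (kk i j)) 0 0 := by
        rw [hasDerivAt_pi] at hF
        exact hF (kk i j)
      have hd : DifferentiableAt ℝ (fun s ↦ den (γ s) (kk i j)) 0 := by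
        have h2 : DifferentiableAt ℝ (fun v : Fin 6 → ℝ ↦ den v (kk i j)) (γ 0) :=
          (den_cd (kk i j)).differentiable (by simp) _
        exact h2.comp 0 hγ.differentiableAt
      have hd0 : den (γ 0) (kk i j) ≠ 0 := by
        rw [hγ0]
        exact (den_pos hv _).ne'
      have h2 := (hk.div hd.hasDerivAt hd0).const_sub (1 / 2)
      have h3 : FA a b c t (γ 0) (kk i j) = 0 := by
        rw [hγ0, hF0]
        rfl
      rw [h3] at h2
      simp only [zero_mul, sub_zero, zero_div, neg_zero] at h2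
      refine h2.congr_of_eventuallyEq ?_
      have h4 : ∀ᶠ s in 𝓝 (0 : ℝ), ∀ l, 0 < γ s l := by
        rw [Filter.eventually_all]
        intro l
        have h5 : ContinuousAt (fun s ↦ γ s l) 0 :=
          (continuous_apply l).continuousAt.comp hγ.continuousAt
        refine h5.eventually (lt_mem_nhds ?_)
        show 0 < γ 0 l
        rw [hγ0]
        exact hv l
      filter_upwards [h4] with s hs
      have h5 : x + s • mat w = mat (γ s) := by
        rw [mat_add, mat_vec hx]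
      rw [h5]
      exact ric_mat e hs hij
  calc w = vec (mat w) := (vec_mat w).symm
    _ = vec 0 := by rw [h1]
    _ = 0 := by
      funext i
      fin_cases i <;> rfl

theorem sg_le_one (r : ℝ) : sg r ≤ 1 := by
  unfold sg
  rcases lt_trichotomy r 0 with h | h | h
  · rw [sign_neg h]
    decide
  · rw [h, sign_zero]
    decide
  · rw [sign_pos h]
    decide

theorem sg_zero : sg 0 = 0 := by
  unfold sg
  rw [sign_zero]
  rfl

theorem e_fin (h1 : E_DEG) (h2 : T_TOT) (h3 : K_SGN) : E_FIN := by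
  classical
  intro n hn
  obtain ⟨a, b, c, t, ha, hb, hc, habc, ht, ht1, -, -, -, -, e⟩ := sizes n hn
  have hN : 0 < ∑ l, (n l : ℝ) := sum_pos (fun l _ ↦ by exact_mod_cast hn l) ⟨0, mem_univ 0⟩
  set ν : Fin 4 → ℝ := fun k ↦ (n k : ℝ) / ∑ l, (n l : ℝ) with hνd
  have hν : ∀ i, 0 < ν i := fun i ↦ by
    have : (0 : ℝ) < n i := by exact_mod_cast hn i
    rw [hνd]
    positivity
  have hν1 : ∑ i, ν i = 1 := by
    rw [hνd]
    simp only
    rw [← sum_div, div_self hN.ne']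
  have hnu : ν = nu a b c t := e
  -- the total
  have total : ∀ Z : Finset (Fin 6 → ℝ), (∀ v, v ∈ Z ↔ Sol a b c t v) →
      (∀ v ∈ Z, jac (FA a b c t) v ≠ 0) → ∑ v ∈ Z, sg (jac (FA a b c t) v) = -6 := by
    intro Z hZ hZ'
    obtain ⟨ε, hε, H⟩ := h2
    have hm : 0 < min ε 1 := lt_min hε one_pos
    obtain ⟨Z', hZ1, hZ2, hZ3⟩ := H (min ε 1 / 2) (by linarith)
      (by linarith [min_le_left ε 1])
    rw [← hZ3]
    exact h1 a b c t (1 / 3) (1 / 3) (1 / 3) (min ε 1 / 2) Z Z' ha hb hc habc ht ht1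
      (by norm_num) (by norm_num) (by norm_num) (by norm_num) (by linarith)
      (by linarith [min_le_right ε 1]) hZ (fun v ↦ by rw [hZ1 v, and_true]) hZ' hZ2
  -- the correspondence
  have corr : ∀ x, IsMetric x ∧ IsEinstein n (1 / 2) x → Sol a b c t (vec x) := by
    rintro x ⟨hx, hE⟩
    rw [← normEin_iff hx, ← e]
    exact (ein_iff n hx).1 hE
  have corr2 : ∀ v, Sol a b c t v → IsMetric (mat v) ∧ IsEinstein n (1 / 2) (mat v) := by
    intro v hv
    have hx := isMetric_mat hv.pos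
    refine ⟨hx, (ein_iff n hx).2 ?_⟩
    have : NormEin ![t * a, t * b, t * c, 1 - t] (mat v) := by
      rw [normEin_iff hx, vec_mat]
      exact hv
    rw [← e] at this
    exact this
  have kae : ∀ x, IsMetric x → IsEinstein n (1 / 2) x → IsKaehler x →
      sg (jac (FA a b c t) (vec x)) = -1 := by
    intro x hx hE hk
    obtain ⟨σ, hσ⟩ := exists_perm hν hν1 hx ((ein_iff n hx).1 hE) hk
    have := h3 ν hν hν1 σ
    rw [← hσ] at this
    rw [FA_eq, ← hnu]
    exact this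
  -- passage from metrics to vectors
  have img : ∀ Z : Finset (Fin 4 → Fin 4 → ℝ),
      (∀ x, x ∈ Z ↔ IsMetric x ∧ IsEinstein n (1 / 2) x) →
      (∀ x ∈ Z, jac (FA a b c t) (vec x) ≠ 0) →
      ∑ x ∈ Z, sg (jac (FA a b c t) (vec x)) = -6 := by
    intro Z hZ hZ'
    have hinj : Set.InjOn vec (Z : Set (Fin 4 → Fin 4 → ℝ)) := by
      intro x hx y hy hxy
      have hx1 := ((hZ x).1 hx).1
      have hy1 := ((hZ y).1 hy).1
      rw [← mat_vec hx1, ← mat_vec hy1, hxy]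
    rw [← total (Z.image vec) ?_ ?_, sum_image hinj]
    · intro v
      rw [mem_image]
      constructor
      · rintro ⟨x, hx, rfl⟩
        exact corr x ((hZ x).1 hx)
      · intro hv
        exact ⟨mat v, (hZ _).2 (corr2 v hv), vec_mat v⟩
    · intro v hv
      obtain ⟨x, hx, rfl⟩ := mem_image.1 hv
      exact hZ' x hx
  have h12 := kaehler_all n hn
  constructor
  · by_contra hcon
    push Not at hcon
    have hfin : {x : Fin 4 → Fin 4 → ℝ | IsMetric x ∧ IsEinstein n (1 / 2) x ∧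
        IsKaehler x}.Finite := Set.finite_of_ncard_ne_zero (by rw [h12]; norm_num)
    have hmem : ∀ x, x ∈ hfin.toFinset ↔ IsMetric x ∧ IsEinstein n (1 / 2) x := by
      intro x
      rw [Set.Finite.mem_toFinset]
      constructor
      · rintro ⟨p1, p2, -⟩
        exact ⟨p1, p2⟩
      · rintro ⟨p1, p2⟩
        exact ⟨p1, p2, hcon x p1 p2⟩
    have hs : ∀ x ∈ hfin.toFinset, sg (jac (FA a b c t) (vec x)) = -1 := by
      intro x hx
      have hx1 := (hmem x).1 hx
      exact kae x hx1.1 hx1.2 (hcon x hx1.1 hx1.2)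
    have h6 := img hfin.toFinset hmem (fun x hx h0 ↦ by
      have := hs x hx
      rw [h0, sg_zero] at this
      norm_num at this)
    rw [sum_congr rfl hs, sum_const, ← Set.ncard_eq_toFinset_card _ hfin, h12] at h6
    norm_num at h6
  · intro Z hZ hnd
    have h6 := img Z hZ (fun x hx ↦
      jac_ne e ((hZ x).1 hx).1 (corr x ((hZ x).1 hx)) (hnd x hx))
    refine ⟨Z.filter fun x ↦ ¬ IsKaehler x, filter_subset _ _, ?_, fun x hx ↦ (mem_filter.1 hx).2⟩
    rw [← sum_filter_add_sum_filter_not Z (fun x ↦ IsKaehler x)] at h6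
    have h7 : ∑ x ∈ Z.filter (fun x ↦ IsKaehler x), sg (jac (FA a b c t) (vec x)) = -12 := by
      have h8 : ∀ x ∈ Z.filter (fun x ↦ IsKaehler x), sg (jac (FA a b c t) (vec x)) = -1 := by
        intro x hx
        obtain ⟨p1, p2⟩ := mem_filter.1 hx
        have p3 := (hZ x).1 p1
        exact kae x p3.1 p3.2 p2
      have h9 : {x : Fin 4 → Fin 4 → ℝ | IsMetric x ∧ IsEinstein n (1 / 2) x ∧ IsKaehler x} =
          ((Z.filter fun x ↦ IsKaehler x : Finset (Fin 4 → Fin 4 → ℝ)) :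
            Set (Fin 4 → Fin 4 → ℝ)) := by
        ext x
        rw [mem_coe, mem_filter, hZ x]
        exact ⟨fun p ↦ ⟨⟨p.1, p.2.1⟩, p.2.2⟩, fun p ↦ ⟨p.1.1, p.1.2, p.2⟩⟩
      rw [h9, Set.ncard_coe_finset] at h12
      rw [sum_congr rfl h8, sum_const, h12]
      norm_num
    have h10 : ∑ x ∈ Z.filter (fun x ↦ ¬ IsKaehler x), sg (jac (FA a b c t) (vec x)) ≤
        ((Z.filter fun x ↦ ¬ IsKaehler x).card : ℤ) := by
      calc ∑ x ∈ Z.filter (fun x ↦ ¬ IsKaehler x), sg (jac (FA a b c t) (vec x))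
          ≤ ∑ x ∈ Z.filter (fun x ↦ ¬ IsKaehler x), (1 : ℤ) := sum_le_sum fun x _ ↦ sg_le_one _
        _ = _ := by simp
    have h11 : (6 : ℤ) ≤ ((Z.filter fun x ↦ ¬ IsKaehler x).card : ℤ) := by linarith
    exact_mod_cast h11

end Pool.Agent.Helper54.DG
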